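import Pool.Agent.H33R3.Bom.Stmts3
set_option autoImplicit false
namespace Pool.Agent.H886R3.Bom3
open Complex Metric Set Filter Topology
open scoped ComplexConjugate
open Pool.Agent.H33R3.Bom

noncomputable def Qj (j : ℕ) (a b : ℂ) : ℂ := ∑ i ∈ Finset.range (2 * j + 1), a ^ i * b ^ (2 * j - i)

lemma Dk_eq (j : ℕ) (γ : ℝ) : Qj j (exp (I * γ)) (-exp (-(I * γ))) = (Dk j γ : ℂ) := by
  have h : conj (Qj j (exp (I * γ)) (-exp (-(I * γ)))) = Qj j (exp (I * γ)) (-exp (-(I * γ))) := by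
    unfold Qj
    rw [map_sum, ← Finset.sum_flip]
    apply Finset.sum_congr rfl
    intro i hi
    have hi' : i ≤ 2 * j := by simpa [Nat.lt_succ_iff] using hi
    rw [map_mul, map_pow, map_pow, map_neg, ← Complex.exp_conj, ← Complex.exp_conj, map_neg,
      map_mul, Complex.conj_I, Complex.conj_ofReal, Nat.sub_sub_self hi', neg_mul, neg_neg,
      neg_pow (exp (I * γ)), neg_pow (exp (-(I * γ))) (2 * j - i)]
    have : ((-1 : ℂ)) ^ (2 * j - i) = (-1) ^ i := by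
      have h2 : (-1 : ℂ) ^ (2 * j - i) * (-1) ^ i = 1 := by
        rw [← pow_add, Nat.sub_add_cancel hi', pow_mul]; simp
      have h3 : (-1 : ℂ) ^ i * (-1) ^ i = 1 := by rw [← mul_pow]; simp
      have h4 : (-1 : ℂ) ^ i ≠ 0 := pow_ne_zero _ (by norm_num)
      exact mul_right_cancel₀ h4 (h2.trans h3.symm)
    rw [this]; ring
  have h1 := Complex.conj_eq_iff_re.1 h
  rw [← h1]; rfl

lemma Qj_norm (j : ℕ) {a b : ℂ} (ha : ‖a‖ ≤ 1) (hb : ‖b‖ ≤ 1) : ‖Qj j a b‖ ≤ 2 * j + 1 := by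
  unfold Qj
  calc _ ≤ ∑ i ∈ Finset.range (2 * j + 1), ‖a ^ i * b ^ (2 * j - i)‖ := norm_sum_le _ _
    _ ≤ ∑ i ∈ Finset.range (2 * j + 1), (1 : ℝ) := by
        apply Finset.sum_le_sum
        intro i _
        rw [norm_mul, norm_pow, norm_pow]
        exact mul_le_one₀ (pow_le_one₀ (norm_nonneg _) ha) (by positivity)
          (pow_le_one₀ (norm_nonneg _) hb)
    _ = 2 * j + 1 := by simp

lemma Qj_diff (j : ℕ) {a b : ℂ} (ha : ‖a‖ = 1) (hb : ‖b‖ = 1) {r s : ℝ} (hr0 : 0 ≤ r) (hr : r ≤ 1)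
    (hs0 : 0 ≤ s) (hs : s ≤ 1) : ‖Qj j (r * a) (s * b) - Qj j a b‖ ≤ (2 * j + 1) * (2 * j * (1 - r * s)) := by
  unfold Qj
  rw [← Finset.sum_sub_distrib]
  calc _ ≤ ∑ i ∈ Finset.range (2 * j + 1), ‖(r * a) ^ i * (s * b) ^ (2 * j - i) - a ^ i * b ^ (2 * j - i)‖ :=
        norm_sum_le _ _
    _ ≤ ∑ i ∈ Finset.range (2 * j + 1), (2 * j * (1 - r * s)) := by
        apply Finset.sum_le_sum
        intro i hi
        have hi' : i ≤ 2 * j := by simpa [Nat.lt_succ_iff] using hi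
        have e : ((r : ℂ) * a) ^ i * (s * b) ^ (2 * j - i) - a ^ i * b ^ (2 * j - i) =
            (((r ^ i * s ^ (2 * j - i) - 1 : ℝ)) : ℂ) * (a ^ i * b ^ (2 * j - i)) := by
          push_cast; ring
        rw [e, norm_mul, norm_mul, norm_pow, norm_pow, ha, hb, one_pow, one_pow, mul_one, mul_one,
          Complex.norm_real, Real.norm_eq_abs]
        have h1 : r ^ i * s ^ (2 * j - i) ≤ 1 :=
          mul_le_one₀ (pow_le_one₀ hr0 hr) (by positivity) (pow_le_one₀ hs0 hs)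
        have h2 : (r * s) ^ (2 * j) ≤ r ^ i * s ^ (2 * j - i) := by
          rw [mul_pow]
          exact mul_le_mul (pow_le_pow_of_le_one hr0 hr hi')
            (pow_le_pow_of_le_one hs0 hs (Nat.sub_le _ _)) (by positivity) (by positivity)
        have h3 : 1 + ((2 * j : ℕ) : ℝ) * (r * s - 1) ≤ (1 + (r * s - 1)) ^ (2 * j) :=
          one_add_mul_le_pow (by nlinarith [mul_nonneg hr0 hs0]) _
        rw [abs_of_nonpos (by linarith)]
        push_cast at h3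
        have e2 : (1 + (r * s - 1)) = r * s := by ring
        rw [e2] at h3
        nlinarith
    _ = _ := by rw [Finset.sum_const, Finset.card_range]; simp

lemma sin_sub (x : ℝ) : |Real.sin x - x| ≤ 2 * x ^ 2 := by
  rcases le_or_gt |x| 1 with h | h
  · have := Real.sin_bound h
    have h2 : |Real.sin x - x| ≤ |x| ^ 3 / 6 + |x| ^ 5 / 100 := by
      have e : Real.sin x - x = (Real.sin x - (x - x ^ 3 / 6)) + (- (x ^ 3 / 6)) := by ring
      rw [e]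
      calc _ ≤ |Real.sin x - (x - x ^ 3 / 6)| + |-(x ^ 3 / 6)| := abs_add_le _ _
        _ ≤ _ := by
          rw [abs_neg, abs_div, abs_pow, abs_of_pos (by norm_num : (0 : ℝ) < 6)]
          linarith
    have h3 : |x| ^ 2 = x ^ 2 := sq_abs x
    have h0 := abs_nonneg x
    have h4 : |x| ^ 3 ≤ |x| ^ 2 := pow_le_pow_of_le_one h0 h (by norm_num)
    have h5 : |x| ^ 5 ≤ |x| ^ 2 := pow_le_pow_of_le_one h0 h (by norm_num)
    nlinarith [sq_nonneg x]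
  · have h1 : |Real.sin x - x| ≤ |Real.sin x| + |x| := abs_sub _ _
    have h2 := Real.abs_sin_le_one x
    have h3 : |x| ^ 2 = x ^ 2 := sq_abs x
    nlinarith


lemma termb (j : ℕ) {a b : ℂ} (D : ℝ) (hD : Qj j a b = D) (ha : ‖a‖ = 1) (hb : ‖b‖ = 1) {r s : ℝ}
    (hr0 : 0 ≤ r) (hr : r ≤ 1) (hs0 : 0 ≤ s) (hs : s ≤ 1) (η : ℝ) :
    ‖exp (I * ((j * η : ℝ) : ℂ)) * Qj j (r * a) (s * b) - D‖ ≤
      8 * ((j : ℝ) + 1) ^ 3 * (|η| + (1 - r * s)) ∧
    |(exp (I * ((j * η : ℝ) : ℂ)) * Qj j (r * a) (s * b)).im - j * η * D| ≤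
      8 * ((j : ℝ) + 1) ^ 3 * (η ^ 2 + (1 - r * s)) ∧ |D| ≤ 2 * j + 1 := by
  have h1 := Qj_diff j ha hb hr0 hr hs0 hs
  rw [hD] at h1
  have hDn : |D| ≤ 2 * j + 1 := by
    have := Qj_norm j ha.le hb.le
    rw [hD, Complex.norm_real] at this
    exact this
  have hj : (0 : ℝ) ≤ j := Nat.cast_nonneg j
  have hδ : 0 ≤ 1 - r * s := by nlinarith
  have hE : ‖exp (I * ((j * η : ℝ) : ℂ))‖ = 1 := by
    rw [mul_comm, Complex.norm_exp_ofReal_mul_I]
  have hc3 : (2 * (j : ℝ) + 1) * (2 * j) ≤ 8 * (j + 1) ^ 3 := by nlinarith [sq_nonneg (j : ℝ), mul_nonneg hj (sq_nonneg (j : ℝ))]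
  have hc4 : (2 * (j : ℝ) + 1) * j ≤ 8 * (j + 1) ^ 3 := by nlinarith [sq_nonneg (j : ℝ), mul_nonneg hj (sq_nonneg (j : ℝ))]
  have hc5 : (2 * (j : ℝ) + 1) * (2 * j ^ 2) ≤ 8 * (j + 1) ^ 3 := by nlinarith [sq_nonneg (j : ℝ), mul_nonneg hj (sq_nonneg (j : ℝ))]
  have hd : ‖exp (I * ((j * η : ℝ) : ℂ)) * (Qj j (r * a) (s * b) - D)‖ ≤ 8 * ((j : ℝ) + 1) ^ 3 * (1 - r * s) := by
    rw [norm_mul, hE, one_mul]
    calc _ ≤ _ := h1
      _ = ((2 * (j : ℝ) + 1) * (2 * j)) * (1 - r * s) := by ring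
      _ ≤ _ := mul_le_mul_of_nonneg_right hc3 hδ
  refine ⟨?_, ?_, hDn⟩
  · have e : exp (I * ((j * η : ℝ) : ℂ)) * Qj j (r * a) (s * b) - D =
        exp (I * ((j * η : ℝ) : ℂ)) * (Qj j (r * a) (s * b) - D) +
          (exp (I * ((j * η : ℝ) : ℂ)) - 1) * D := by ring
    have h2 : ‖(exp (I * ((j * η : ℝ) : ℂ)) - 1) * D‖ ≤ 8 * ((j : ℝ) + 1) ^ 3 * |η| := by
      rw [norm_mul, Complex.norm_real, Real.norm_eq_abs]
      have h3 : ‖exp (I * ((j * η : ℝ) : ℂ)) - 1‖ ≤ j * |η| := by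
        have := Real.norm_exp_I_mul_ofReal_sub_one_le (x := j * η)
        rwa [Real.norm_eq_abs, abs_mul, abs_of_nonneg hj] at this
      calc _ ≤ (j * |η|) * (2 * j + 1) := mul_le_mul h3 hDn (abs_nonneg _) (by positivity)
        _ = ((2 * (j : ℝ) + 1) * j) * |η| := by ring
        _ ≤ _ := mul_le_mul_of_nonneg_right hc4 (abs_nonneg _)
    rw [e]
    calc _ ≤ _ := norm_add_le _ _
      _ ≤ _ := by nlinarith
  · have e : (exp (I * ((j * η : ℝ) : ℂ)) * Qj j (r * a) (s * b)).im - j * η * D =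
        (exp (I * ((j * η : ℝ) : ℂ)) * (Qj j (r * a) (s * b) - D)).im +
          (Real.sin (j * η) - j * η) * D := by
      have h5 : (exp (I * ((j * η : ℝ) : ℂ)) * (D : ℂ)).im = Real.sin (j * η) * D := by
        rw [Complex.im_mul_ofReal, mul_comm I, Complex.exp_ofReal_mul_I_im]
      rw [mul_sub, Complex.sub_im, h5]; ring
    rw [e]
    have h2 : |(Real.sin (j * η) - j * η) * D| ≤ 8 * ((j : ℝ) + 1) ^ 3 * η ^ 2 := by
      rw [abs_mul]
      calc _ ≤ (2 * (j * η) ^ 2) * (2 * j + 1) := mul_le_mul (sin_sub _) hDn (abs_nonneg _) (by positivity)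
        _ = ((2 * (j : ℝ) + 1) * (2 * j ^ 2)) * η ^ 2 := by ring
        _ ≤ _ := mul_le_mul_of_nonneg_right hc5 (by positivity)
    have h3 := (Complex.abs_im_le_norm _).trans hd
    refine (abs_add_le _ _).trans ((add_le_add h3 h2).trans (le_of_eq ?_))
    ring

lemma sumB {c : ℕ → ℝ} {ρ C : ℝ} (hρ0 : 0 < ρ) (hρ : ρ < 1) (hc : ∀ j, |c j| ≤ C * ρ ^ j) :
    Summable fun j : ℕ => |c j| * (8 * ((j : ℝ) + 1) ^ 3) := by
  have h1 : Summable fun j : ℕ => ((j : ℝ) + 1) ^ 3 * ρ ^ (j + 1) := by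
    have := (summable_nat_add_iff 1).2 (summable_pow_mul_geometric_of_norm_lt_one 3
      (r := ρ) (by rwa [Real.norm_eq_abs, abs_of_pos hρ0]))
    simpa using this
  have h2 : Summable fun j : ℕ => (8 * C / ρ) * (((j : ℝ) + 1) ^ 3 * ρ ^ (j + 1)) := h1.mul_left _
  refine Summable.of_nonneg_of_le (fun j => by positivity) (fun j => ?_) h2
  have h3 := mul_le_mul_of_nonneg_right (hc j) (show 0 ≤ 8 * ((j : ℝ) + 1) ^ 3 by positivity)
  refine h3.trans (le_of_eq ?_)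
  field_simp
  ring

lemma series {c : ℕ → ℝ} {ρ C : ℝ} (hρ0 : 0 < ρ) (hρ : ρ < 1) (hc : ∀ j, |c j| ≤ C * ρ ^ j) :
    ∃ A : ℝ, 0 ≤ A ∧ ∀ (γ η r s : ℝ), 0 ≤ r → r ≤ 1 → 0 ≤ s → s ≤ 1 →
      let QQ : ℂ := ∑' j : ℕ, (c j : ℂ) * (exp (I * ((j * η : ℝ) : ℂ)) *
        Qj j (r * exp (I * γ)) (s * (-exp (-(I * γ)))))
      let S0 : ℝ := ∑' j : ℕ, c j * Dk j γ
      let S1 : ℝ := ∑' j : ℕ, (2 * (j : ℝ) + 1) * c j * Dk j γ
      ‖QQ - S0‖ ≤ A * (|η| + (1 - r * s)) ∧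
      |QQ.im - η * ((S1 - S0) / 2)| ≤ A * (η ^ 2 + (1 - r * s)) ∧ |S0| ≤ A ∧
        |(S1 - S0) / 2| ≤ A := by
  have hB := sumB hρ0 hρ hc
  refine ⟨∑' j : ℕ, |c j| * (8 * ((j : ℝ) + 1) ^ 3), tsum_nonneg fun j => by positivity, ?_⟩
  intro γ η r s hr0 hr hs0 hs
  have ha : ‖exp (I * (γ : ℂ))‖ = 1 := by rw [mul_comm, Complex.norm_exp_ofReal_mul_I]
  have hb : ‖-exp (-(I * (γ : ℂ)))‖ = 1 := by
    rw [norm_neg, Complex.exp_neg, norm_inv, ha, inv_one]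
  have ht := fun j : ℕ => termb j (Dk j γ) (Dk_eq j γ) ha hb hr0 hr hs0 hs η
  have hj : ∀ j : ℕ, (0 : ℝ) ≤ j := fun j => Nat.cast_nonneg j
  set B : ℕ → ℝ := fun j => |c j| * (8 * ((j : ℝ) + 1) ^ 3) with hBdef
  have hB0 : ∀ j, 0 ≤ B j := fun j => by simp only [hBdef]; positivity
  have hD : ∀ j : ℕ, |Dk j γ| ≤ 2 * j + 1 := fun j => (ht j).2.2
  have c1 : ∀ j : ℕ, (2 * (j : ℝ) + 1) ≤ 8 * (j + 1) ^ 3 := fun j => by
    nlinarith [sq_nonneg (j : ℝ), mul_nonneg (hj j) (sq_nonneg (j : ℝ)), hj j]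
  have c2 : ∀ j : ℕ, (j : ℝ) * (2 * (j : ℝ) + 1) ≤ 8 * (j + 1) ^ 3 := fun j => by
    nlinarith [sq_nonneg (j : ℝ), mul_nonneg (hj j) (sq_nonneg (j : ℝ)), hj j]
  have b0 : ∀ j : ℕ, ‖c j * Dk j γ‖ ≤ B j := fun j => by
    rw [Real.norm_eq_abs, abs_mul]
    exact mul_le_mul_of_nonneg_left ((hD j).trans (c1 j)) (abs_nonneg _)
  have b1 : ∀ j : ℕ, ‖(j : ℝ) * (c j * Dk j γ)‖ ≤ B j := fun j => by
    rw [Real.norm_eq_abs, abs_mul, abs_mul, abs_of_nonneg (hj j)]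
    calc (j : ℝ) * (|c j| * |Dk j γ|) = |c j| * (j * |Dk j γ|) := by ring
      _ ≤ |c j| * (8 * (j + 1) ^ 3) := mul_le_mul_of_nonneg_left
        ((mul_le_mul_of_nonneg_left (hD j) (hj j)).trans (c2 j)) (abs_nonneg _)
  have s0 : Summable fun j : ℕ => c j * Dk j γ := Summable.of_norm_bounded hB b0
  have s1 : Summable fun j : ℕ => (j : ℝ) * (c j * Dk j γ) := Summable.of_norm_bounded hB b1
  have hE : ∀ j : ℕ, ‖exp (I * ((j * η : ℝ) : ℂ))‖ = 1 := fun j => by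
    rw [mul_comm, Complex.norm_exp_ofReal_mul_I]
  have bq : ∀ j : ℕ, ‖(c j : ℂ) * (exp (I * ((j * η : ℝ) : ℂ)) *
        Qj j (r * exp (I * γ)) (s * (-exp (-(I * γ)))))‖ ≤ B j := fun j => by
    rw [norm_mul, norm_mul, hE, one_mul, Complex.norm_real, Real.norm_eq_abs]
    refine mul_le_mul_of_nonneg_left ((Qj_norm j ?_ ?_).trans (c1 j)) (abs_nonneg _)
    · rw [norm_mul, ha, mul_one, Complex.norm_real, Real.norm_eq_abs, abs_of_nonneg hr0]; exact hr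
    · rw [norm_mul, hb, mul_one, Complex.norm_real, Real.norm_eq_abs, abs_of_nonneg hs0]; exact hs
  have sq : Summable fun j : ℕ => (c j : ℂ) * (exp (I * ((j * η : ℝ) : ℂ)) *
        Qj j (r * exp (I * γ)) (s * (-exp (-(I * γ))))) := Summable.of_norm_bounded hB bq
  intro QQ S0 S1
  have hS1 : (S1 - S0) / 2 = ∑' j : ℕ, (j : ℝ) * (c j * Dk j γ) := by
    have : S1 = 2 * (∑' j : ℕ, (j : ℝ) * (c j * Dk j γ)) + S0 := by
      simp only [S1, S0]
      rw [← tsum_mul_left, ← (s1.mul_left 2).tsum_add s0]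
      congr 1; funext j; ring
    rw [this]; ring
  have hS0c : (S0 : ℂ) = ∑' j : ℕ, ((c j * Dk j γ : ℝ) : ℂ) := Complex.ofReal_tsum _
  have s0c : Summable fun j : ℕ => ((c j * Dk j γ : ℝ) : ℂ) := by
    exact_mod_cast s0
  refine ⟨?_, ?_, ?_, ?_⟩
  · rw [hS0c, ← sq.tsum_sub s0c]
    refine tsum_of_norm_bounded (hB.hasSum.mul_right _) (fun j => ?_)
    have := mul_le_mul_of_nonneg_left (ht j).1 (abs_nonneg (c j))
    have e : (c j : ℂ) * (exp (I * ((j * η : ℝ) : ℂ)) *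
        Qj j (r * exp (I * γ)) (s * (-exp (-(I * γ))))) - ((c j * Dk j γ : ℝ) : ℂ) =
        (c j : ℂ) * (exp (I * ((j * η : ℝ) : ℂ)) *
        Qj j (r * exp (I * γ)) (s * (-exp (-(I * γ)))) - Dk j γ) := by push_cast; ring
    rw [e, norm_mul, Complex.norm_real, Real.norm_eq_abs]
    refine this.trans (le_of_eq ?_)
    simp only [hBdef]; ring
  · have him : QQ.im = ∑' j : ℕ, ((c j : ℂ) * (exp (I * ((j * η : ℝ) : ℂ)) *
        Qj j (r * exp (I * γ)) (s * (-exp (-(I * γ)))))).im := Complex.im_tsum sq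
    have sqi := (Complex.hasSum_im sq.hasSum).summable
    rw [him, hS1, ← tsum_mul_left, ← sqi.tsum_sub (s1.mul_left η), ← Real.norm_eq_abs]
    refine tsum_of_norm_bounded (hB.hasSum.mul_right _) (fun j => ?_)
    have := mul_le_mul_of_nonneg_left (ht j).2.1 (abs_nonneg (c j))
    have e : ((c j : ℂ) * (exp (I * ((j * η : ℝ) : ℂ)) *
        Qj j (r * exp (I * γ)) (s * (-exp (-(I * γ)))))).im - η * ((j : ℝ) * (c j * Dk j γ)) =
        c j * ((exp (I * ((j * η : ℝ) : ℂ)) *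
        Qj j (r * exp (I * γ)) (s * (-exp (-(I * γ))))).im - j * η * Dk j γ) := by
      rw [Complex.im_ofReal_mul]; ring
    rw [e, Real.norm_eq_abs, abs_mul]
    refine this.trans (le_of_eq ?_)
    simp only [hBdef]; ring
  · rw [← Real.norm_eq_abs]
    exact tsum_of_norm_bounded hB.hasSum b0
  · rw [hS1, ← Real.norm_eq_abs]
    exact tsum_of_norm_bounded hB.hasSum b1

end Pool.Agent.H886R3.Bom3
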