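import Mathlib
set_option autoImplicit false
namespace Pool.Agent.H886R3.Bom3
open Complex Metric Set Filter Topology

lemma final (A κ : ℝ) (hA : 1 ≤ A) (hκ : 0 < κ) : ∃ ε₀ : ℝ, 0 < ε₀ ∧ ∀ ε : ℝ, 0 < ε → ε < ε₀ →
    ∀ (Q M : ℂ) (R S μ η P : ℝ), 0 < P → P < 1 → |η| ≤ Real.pi →
    ‖Q - R‖ ≤ A * (|η| + (1 - P)) → |Q.im - η * S| ≤ A * (η ^ 2 + (1 - P)) →
    |R| ≤ A → |S| ≤ A → ‖M - μ‖ ≤ A * (|η| + (1 - P)) → |μ| ≤ A →
    R * (2 * S + R) / 2 + κ ≤ μ →
    (P : ℂ) * exp (I * η) * (1 - (I * ε * Q + (ε : ℂ) ^ 2 * M)) = 1 → False := by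
  obtain ⟨b, hb⟩ : ∃ b : ℝ, b = 12 * A := ⟨_, rfl⟩
  obtain ⟨K2, hK2⟩ : ∃ K2 : ℝ, K2 = 14 * A * b ^ 2 + 12 * A + b ^ 2 := ⟨_, rfl⟩
  obtain ⟨K3, hK3⟩ : ∃ K3 : ℝ, K3 = 8 * b ^ 2 + K2 + 6 * A + b ^ 2 + 3 * A * b := ⟨_, rfl⟩
  obtain ⟨K4, hK4⟩ : ∃ K4 : ℝ, K4 = A * (4 * b ^ 2 + K2) + K3 * A := ⟨_, rfl⟩
  obtain ⟨K5, hK5⟩ : ∃ K5 : ℝ, K5 = 3 * A * b + 6 * A := ⟨_, rfl⟩
  obtain ⟨K6, hK6⟩ : ∃ K6 : ℝ, K6 = 2 * K4 + 6 * A * b + 2 * A * K5 + K5 ^ 2 := ⟨_, rfl⟩
  have hA0 : 0 < A := by linarith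
  have hb0 : 0 < b := by rw [hb]; positivity
  have hb1 : 1 ≤ b := by rw [hb]; linarith
  have hK20 : 0 < K2 := by rw [hK2]; positivity
  have hK30 : 0 < K3 := by rw [hK3]; positivity
  have hK40 : 0 < K4 := by rw [hK4]; positivity
  have hK50 : 0 < K5 := by rw [hK5]; positivity
  have hK60 : 0 < K6 := by rw [hK6]; positivity
  refine ⟨min (1 / (2 * b)) (2 * κ / K6), by positivity, ?_⟩
  intro ε h0 hlt Q M R S μ η P hP0 hP1 hη hQ hQi hR hS hM hμ hκμ heq
  have hε1 : ε < 1 / (2 * b) := hlt.trans_le (min_le_left _ _)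
  have hε2 : ε < 2 * κ / K6 := hlt.trans_le (min_le_right _ _)
  have hbε : b * ε < 1 / 2 := by
    rw [lt_div_iff₀ (by positivity)] at hε1
    linarith
  have hK6ε : K6 * ε < 2 * κ := by
    rw [lt_div_iff₀ hK60] at hε2
    linarith
  have hεle : ε ≤ 1 := by
    have : 1 * ε ≤ b * ε := mul_le_mul_of_nonneg_right hb1 h0.le
    linarith
  have hpi : Real.pi ≤ 4 := Real.pi_le_four
  have hη4 : |η| ≤ 4 := hη.trans hpi
  have h5A : A * (|η| + (1 - P)) ≤ A * 5 := mul_le_mul_of_nonneg_left (by linarith) hA0.le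
  have nQ : ‖Q‖ ≤ 6 * A := by
    calc ‖Q‖ = ‖(Q - R) + R‖ := by rw [sub_add_cancel]
      _ ≤ ‖Q - R‖ + ‖(R : ℂ)‖ := norm_add_le _ _
      _ ≤ A * (|η| + (1 - P)) + A := add_le_add hQ (by rw [Complex.norm_real]; exact hR)
      _ ≤ 6 * A := by linarith
  have nM : ‖M‖ ≤ 6 * A := by
    calc ‖M‖ = ‖(M - μ) + μ‖ := by rw [sub_add_cancel]
      _ ≤ ‖M - μ‖ + ‖(μ : ℂ)‖ := norm_add_le _ _
      _ ≤ A * (|η| + (1 - P)) + A := add_le_add hM (by rw [Complex.norm_real]; exact hμ)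
      _ ≤ 6 * A := by linarith
  obtain ⟨u, hu⟩ : ∃ u : ℂ, u = I * ε * Q + (ε : ℂ) ^ 2 * M := ⟨_, rfl⟩
  rw [← hu] at heq
  have nu0 : ‖u‖ ≤ ε * ‖Q‖ + ε ^ 2 * ‖M‖ := by
    rw [hu]
    refine (norm_add_le _ _).trans (le_of_eq ?_)
    rw [norm_mul, norm_mul, norm_mul, norm_pow, Complex.norm_I, Complex.norm_real,
      Real.norm_eq_abs, abs_of_pos h0, one_mul]
  have nu : ‖u‖ ≤ b * ε := by
    have h1 : ε * ‖Q‖ ≤ ε * (6 * A) := mul_le_mul_of_nonneg_left nQ h0.le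
    have h2 : ε ^ 2 * ‖M‖ ≤ ε * (6 * A) := by
      have : ε ^ 2 ≤ ε := by nlinarith
      exact mul_le_mul this nM (norm_nonneg _) h0.le
    calc ‖u‖ ≤ _ := nu0
      _ ≤ ε * (6 * A) + ε * (6 * A) := add_le_add h1 h2
      _ = b * ε := by rw [hb]; ring
  have hure : u.re = -ε * Q.im + ε ^ 2 * M.re := by
    rw [hu]
    simp [pow_two]
  have huim : u.im = ε * Q.re + ε ^ 2 * M.im := by
    rw [hu]
    simp [pow_two]
  obtain ⟨e, he⟩ : ∃ e : ℂ, e = (P : ℂ) * exp (I * η) := ⟨_, rfl⟩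
  rw [← he] at heq
  have ene : ‖e‖ = P := by
    rw [he, norm_mul, mul_comm I, Complex.norm_exp_ofReal_mul_I, Complex.norm_real, mul_one,
      Real.norm_eq_abs, abs_of_pos hP0]
  have ere : e.re = P * Real.cos η := by
    rw [he, Complex.re_ofReal_mul, mul_comm I, Complex.exp_ofReal_mul_I_re]
  have eim : e.im = P * Real.sin η := by
    rw [he, Complex.im_ofReal_mul, mul_comm I, Complex.exp_ofReal_mul_I_im]
  have e1 : e = 1 + e * u := by linear_combination heq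
  have neu : ‖e * u‖ ≤ b * ε := by
    rw [norm_mul, ene]
    calc P * ‖u‖ ≤ 1 * ‖u‖ := mul_le_mul_of_nonneg_right hP1.le (norm_nonneg _)
      _ ≤ b * ε := by rw [one_mul]; exact nu
  have hcos : 1 - b * ε ≤ P * Real.cos η := by
    rw [← ere, e1, Complex.add_re, Complex.one_re]
    have := (Complex.abs_re_le_norm (e * u)).trans neu
    have := (abs_le.1 this).1
    linarith
  have hcospos : 0 < Real.cos η := by
    by_contra hcc
    push Not at hcc
    have : P * Real.cos η ≤ 0 := mul_nonpos_of_nonneg_of_nonpos hP0.le hcc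
    linarith
  have hδ1 : 1 - P ≤ b * ε := by
    have : P * Real.cos η ≤ P * 1 := mul_le_mul_of_nonneg_left (Real.cos_le_one η) hP0.le
    linarith
  have hsin : |Real.sin η| ≤ b * ε := by
    have h1 : P * |Real.sin η| = |(e * u).im| := by
      have : (e * u).im = e.im := by
        conv_rhs => rw [e1]
        simp
      rw [this, eim, abs_mul, abs_of_pos hP0]
    have h2 : |(e * u).im| ≤ P * ‖u‖ := by
      refine (Complex.abs_im_le_norm _).trans (le_of_eq ?_)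
      rw [norm_mul, ene]
    have h3 : P * |Real.sin η| ≤ P * ‖u‖ := h1.le.trans h2
    exact (le_of_mul_le_mul_left h3 hP0).trans nu
  have hηh : |η| ≤ Real.pi / 2 := by
    by_contra hcc
    push Not at hcc
    have : Real.cos |η| ≤ 0 := Real.cos_nonpos_of_pi_div_two_le_of_le hcc.le
      (by linarith [Real.pi_pos])
    rw [Real.cos_abs] at this
    linarith
  have hη1 : |η| ≤ 2 * b * ε := by
    have h1 := Real.mul_abs_le_abs_sin hηh
    have hp := Real.pi_pos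
    have h2 : 2 / Real.pi * |η| ≤ b * ε := h1.trans hsin
    have h3 : 1 / 2 ≤ 2 / Real.pi := by
      rw [div_le_div_iff₀ (by norm_num) hp]; linarith
    have h4 : 1 / 2 * |η| ≤ 2 / Real.pi * |η| := mul_le_mul_of_nonneg_right h3 (abs_nonneg _)
    linarith
  have hηsq : η ^ 2 ≤ 4 * b ^ 2 * ε ^ 2 := by
    rw [← sq_abs]
    calc |η| ^ 2 ≤ (2 * b * ε) ^ 2 := pow_le_pow_left₀ (abs_nonneg _) hη1 2
      _ = _ := by ring
  have hsum3 : A * (|η| + (1 - P)) ≤ 3 * A * b * ε := by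
    have : A * (|η| + (1 - P)) ≤ A * (2 * b * ε + b * ε) :=
      mul_le_mul_of_nonneg_left (add_le_add hη1 hδ1) hA0.le
    linarith
  -- step 2
  have hImQ : |Q.im| ≤ 7 * A * b ^ 2 * ε := by
    have h1 : |η * S| ≤ 2 * b * ε * A := by
      rw [abs_mul]
      exact mul_le_mul hη1 hS (abs_nonneg _) (by positivity)
    have h2 : |Q.im| ≤ |Q.im - η * S| + |η * S| := by
      have := abs_add_le (Q.im - η * S) (η * S)
      rwa [sub_add_cancel] at this
    have h3 : A * (η ^ 2 + (1 - P)) ≤ A * (4 * b ^ 2 * ε + b * ε) := by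
      apply mul_le_mul_of_nonneg_left _ hA0.le
      have : 4 * b ^ 2 * ε ^ 2 ≤ 4 * b ^ 2 * ε := by
        apply mul_le_mul_of_nonneg_left _ (by positivity)
        nlinarith
      linarith
    have h4 : b * (A * ε) ≤ b ^ 2 * (A * ε) := by
      apply mul_le_mul_of_nonneg_right _ (by positivity)
      nlinarith
    have h5 : A * (4 * b ^ 2 * ε + b * ε) + 2 * b * ε * A = 4 * (b ^ 2 * (A * ε)) + 3 * (b * (A * ε)) := by
      ring
    have h6 : 7 * A * b ^ 2 * ε = 4 * (b ^ 2 * (A * ε)) + 3 * (b ^ 2 * (A * ε)) := by ring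
    rw [h6]
    linarith
  have hPu : P ^ 2 * (1 - 2 * u.re + ‖u‖ ^ 2) = 1 := by
    have h1 : ‖e * (1 - u)‖ ^ 2 = 1 := by rw [heq]; simp
    rw [norm_mul, ene, mul_pow] at h1
    have h2 : ‖1 - u‖ ^ 2 = 1 - 2 * u.re + ‖u‖ ^ 2 := by
      rw [← Complex.normSq_eq_norm_sq, ← Complex.normSq_eq_norm_sq, Complex.normSq_apply,
        Complex.normSq_apply]
      simp
      ring
    rw [h2] at h1
    exact h1
  have hpos : 0 < -2 * u.re + ‖u‖ ^ 2 := by
    by_contra hcc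
    push Not at hcc
    have h1 : P ^ 2 < 1 := by
      have : P * P < 1 * 1 := mul_lt_mul'' hP1 hP1 hP0.le hP0.le
      linarith [pow_two P]
    have h2 : P ^ 2 * (-2 * u.re + ‖u‖ ^ 2) ≤ 0 :=
      mul_nonpos_of_nonneg_of_nonpos (by positivity) hcc
    linarith
  have hnu2 : ‖u‖ ^ 2 ≤ b ^ 2 * ε ^ 2 := by
    calc ‖u‖ ^ 2 ≤ (b * ε) ^ 2 := pow_le_pow_left₀ (norm_nonneg _) nu 2
      _ = _ := by ring
  have hδ2 : 1 - P ≤ K2 * ε ^ 2 := by
    have h1 : -2 * u.re + ‖u‖ ^ 2 ≤ K2 * ε ^ 2 := by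
      rw [hure]
      have h2 := (abs_le.1 hImQ).2
      have h3 : -(6 * A) ≤ M.re := by
        have := (Complex.abs_re_le_norm M).trans nM
        exact (abs_le.1 this).1
      have h4 : ε * Q.im ≤ ε * (7 * A * b ^ 2 * ε) := mul_le_mul_of_nonneg_left h2 h0.le
      have h5 : ε ^ 2 * (-(6 * A)) ≤ ε ^ 2 * M.re := mul_le_mul_of_nonneg_left h3 (by positivity)
      have h6 : K2 * ε ^ 2 = 2 * (ε * (7 * A * b ^ 2 * ε)) - 2 * (ε ^ 2 * (-(6 * A))) + b ^ 2 * ε ^ 2 := by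
        rw [hK2]; ring
      rw [h6]
      linarith
    have h2 : P ^ 2 ≤ P := by
      have : P * P ≤ P * 1 := mul_le_mul_of_nonneg_left hP1.le hP0.le
      linarith [pow_two P]
    have h3 : P ^ 2 * (-2 * u.re + ‖u‖ ^ 2) ≤ K2 * ε ^ 2 := by
      calc _ ≤ 1 * (-2 * u.re + ‖u‖ ^ 2) := mul_le_mul_of_nonneg_right (h2.trans hP1.le) hpos.le
        _ ≤ _ := by rw [one_mul]; exact h1
    linarith
  -- step 3
  have hη2 : |η - ε * R| ≤ K3 * ε ^ 2 := by
    have h1 : |Real.sin η - η| ≤ 8 * b ^ 2 * ε ^ 2 := by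
      have hsb : |Real.sin η - η| ≤ 2 * η ^ 2 := by
        rcases le_or_gt |η| 1 with h | h
        · have := Real.sin_bound h
          have h2 : |Real.sin η - η| ≤ |η| ^ 3 / 6 + |η| ^ 5 / 100 := by
            have e : Real.sin η - η = (Real.sin η - (η - η ^ 3 / 6)) + (- (η ^ 3 / 6)) := by ring
            rw [e]
            calc _ ≤ |Real.sin η - (η - η ^ 3 / 6)| + |-(η ^ 3 / 6)| := abs_add_le _ _
              _ ≤ _ := by
                rw [abs_neg, abs_div, abs_pow, abs_of_pos (by norm_num : (0 : ℝ) < 6)]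
                linarith
          have h3 : |η| ^ 2 = η ^ 2 := sq_abs η
          have h0 := abs_nonneg η
          have h4 : |η| ^ 3 ≤ |η| ^ 2 := pow_le_pow_of_le_one h0 h (by norm_num)
          have h5 : |η| ^ 5 ≤ |η| ^ 2 := pow_le_pow_of_le_one h0 h (by norm_num)
          nlinarith [sq_nonneg η]
        · have h1 : |Real.sin η - η| ≤ |Real.sin η| + |η| := abs_sub _ _
          have h2 := Real.abs_sin_le_one η
          have h3 : |η| ^ 2 = η ^ 2 := sq_abs η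
          nlinarith
      linarith
    have h2 : |Real.sin η - P * Real.sin η| ≤ K2 * ε ^ 2 := by
      have : Real.sin η - P * Real.sin η = (1 - P) * Real.sin η := by ring
      rw [this, abs_mul, abs_of_pos (by linarith : 0 < 1 - P)]
      calc (1 - P) * |Real.sin η| ≤ (1 - P) * 1 :=
            mul_le_mul_of_nonneg_left (Real.abs_sin_le_one η) (by linarith)
        _ ≤ _ := by rw [mul_one]; exact hδ2
    have h3 : |P * Real.sin η - u.im| ≤ b ^ 2 * ε ^ 2 := by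
      have h4 : P * Real.sin η - u.im = (e * u * u).im := by
        rw [← eim]
        have : e = 1 + u + e * u * u := by linear_combination heq + heq * u
        conv_lhs => rw [this]
        simp
      rw [h4]
      refine (Complex.abs_im_le_norm _).trans ?_
      rw [norm_mul]
      calc ‖e * u‖ * ‖u‖ ≤ (b * ε) * (b * ε) := mul_le_mul neu nu (norm_nonneg _) (by positivity)
        _ = _ := by ring
    have h5 : |u.im - ε * R| ≤ 6 * A * ε ^ 2 + 3 * A * b * ε ^ 2 := by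
      have h6 : u.im - ε * R = ε ^ 2 * M.im + ε * (Q - R).re := by
        rw [huim]; simp; ring
      rw [h6]
      refine (abs_add_le _ _).trans ?_
      rw [abs_mul, abs_mul, abs_of_pos h0, abs_of_pos (by positivity : 0 < ε ^ 2)]
      have h7 : |M.im| ≤ 6 * A := (Complex.abs_im_le_norm M).trans nM
      have h8 : |(Q - R).re| ≤ 3 * A * b * ε := (Complex.abs_re_le_norm _).trans (hQ.trans hsum3)
      have h9 := mul_le_mul_of_nonneg_left h7 (by positivity : 0 ≤ ε ^ 2)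
      have h10 := mul_le_mul_of_nonneg_left h8 h0.le
      calc _ ≤ ε ^ 2 * (6 * A) + ε * (3 * A * b * ε) := add_le_add h9 h10
        _ = _ := by ring
    have h11 : η - ε * R = -(Real.sin η - η) + (Real.sin η - P * Real.sin η) +
        (P * Real.sin η - u.im) + (u.im - ε * R) := by ring
    have t1 := abs_add_le (-(Real.sin η - η) + (Real.sin η - P * Real.sin η) +
        (P * Real.sin η - u.im)) (u.im - ε * R)
    have t2 := abs_add_le (-(Real.sin η - η) + (Real.sin η - P * Real.sin η))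
        (P * Real.sin η - u.im)
    have t3 := abs_add_le (-(Real.sin η - η)) (Real.sin η - P * Real.sin η)
    rw [abs_neg] at t3
    rw [h11]
    have h12 : K3 * ε ^ 2 = 8 * b ^ 2 * ε ^ 2 + K2 * ε ^ 2 + b ^ 2 * ε ^ 2 +
        (6 * A * ε ^ 2 + 3 * A * b * ε ^ 2) := by rw [hK3]; ring
    rw [h12]
    linarith
  -- step 4
  have hIm4 : Q.im ≤ ε * R * S + K4 * ε ^ 2 := by
    have h1 := (abs_le.1 hQi).2
    have h2 : A * (η ^ 2 + (1 - P)) ≤ A * (4 * b ^ 2 * ε ^ 2 + K2 * ε ^ 2) :=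
      mul_le_mul_of_nonneg_left (add_le_add hηsq hδ2) hA0.le
    have h3 : (η - ε * R) * S ≤ K3 * ε ^ 2 * A := by
      refine (le_abs_self _).trans ?_
      rw [abs_mul]
      exact mul_le_mul hη2 hS (abs_nonneg _) (by positivity)
    have h4 : K4 * ε ^ 2 = A * (4 * b ^ 2 * ε ^ 2 + K2 * ε ^ 2) + K3 * ε ^ 2 * A := by
      rw [hK4]; ring
    rw [h4]
    linarith
  have hM4 : μ - 3 * A * b * ε ≤ M.re := by
    have h8 : |(M - μ).re| ≤ 3 * A * b * ε := (Complex.abs_re_le_norm _).trans (hM.trans hsum3)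
    have h9 := (abs_le.1 h8).1
    rw [Complex.sub_re, Complex.ofReal_re] at h9
    linarith
  have hu4 : ‖u‖ ^ 2 ≤ ε ^ 2 * (R ^ 2 + (2 * A * K5 + K5 ^ 2) * ε) := by
    have h1 : ‖Q‖ ≤ |R| + 3 * A * b * ε := by
      calc ‖Q‖ = ‖(Q - R) + R‖ := by rw [sub_add_cancel]
        _ ≤ ‖Q - R‖ + ‖(R : ℂ)‖ := norm_add_le _ _
        _ ≤ 3 * A * b * ε + |R| := add_le_add (hQ.trans hsum3)
          (by rw [Complex.norm_real, Real.norm_eq_abs])
        _ = _ := by ring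
    have h2 : ‖u‖ ≤ ε * (|R| + K5 * ε) := by
      have h3 := mul_le_mul_of_nonneg_left h1 h0.le
      have h4 := mul_le_mul_of_nonneg_left nM (by positivity : 0 ≤ ε ^ 2)
      calc ‖u‖ ≤ _ := nu0
        _ ≤ ε * (|R| + 3 * A * b * ε) + ε ^ 2 * (6 * A) := add_le_add h3 h4
        _ = _ := by rw [hK5]; ring
    have h3 := pow_le_pow_left₀ (norm_nonneg _) h2 2
    refine h3.trans ?_
    rw [mul_pow]
    apply mul_le_mul_of_nonneg_left _ (by positivity)
    have h5 : (|R| + K5 * ε) ^ 2 = R ^ 2 + 2 * |R| * (K5 * ε) + K5 ^ 2 * ε * ε := by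
      rw [← sq_abs R]; ring
    rw [h5]
    have h6 : 2 * |R| * (K5 * ε) ≤ 2 * A * (K5 * ε) :=
      mul_le_mul_of_nonneg_right (by linarith) (by positivity)
    have h7 : K5 ^ 2 * ε * ε ≤ K5 ^ 2 * ε * 1 := mul_le_mul_of_nonneg_left hεle (by positivity)
    linarith
  have hfin : 0 < ε ^ 2 * (2 * R * S + R ^ 2 - 2 * μ + K6 * ε) := by
    have h1 : -2 * u.re + ‖u‖ ^ 2 ≤ ε ^ 2 * (2 * R * S + R ^ 2 - 2 * μ + K6 * ε) := by
      rw [hure]
      have h2 : ε * Q.im ≤ ε * (ε * R * S + K4 * ε ^ 2) := mul_le_mul_of_nonneg_left hIm4 h0.le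
      have h3 : ε ^ 2 * (μ - 3 * A * b * ε) ≤ ε ^ 2 * M.re :=
        mul_le_mul_of_nonneg_left hM4 (by positivity)
      have h4 : ε ^ 2 * (2 * R * S + R ^ 2 - 2 * μ + K6 * ε) =
          2 * (ε * (ε * R * S + K4 * ε ^ 2)) - 2 * (ε ^ 2 * (μ - 3 * A * b * ε)) +
          ε ^ 2 * (R ^ 2 + (2 * A * K5 + K5 ^ 2) * ε) := by rw [hK6]; ring
      rw [h4]
      linarith
    exact hpos.trans_le h1
  have h1 : 0 < 2 * R * S + R ^ 2 - 2 * μ + K6 * ε := by
    by_contra hcc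
    push Not at hcc
    have : ε ^ 2 * (2 * R * S + R ^ 2 - 2 * μ + K6 * ε) ≤ 0 :=
      mul_nonpos_of_nonneg_of_nonpos (by positivity) hcc
    linarith
  nlinarith

end Pool.Agent.H886R3.Bom3
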