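import Pool.Agent.H886R3.Bom3.A
import Pool.Agent.H886R3.Bom3.B
set_option autoImplicit false
namespace Pool.Agent.H886R3.Bom3
open Complex Metric Set Filter Topology
open Pool.Agent.H33R3.Bom

lemma Qj_hom (j : ℕ) (ω a b : ℂ) : Qj j (ω * a) (ω * b) = ω ^ (2 * j) * Qj j a b := by
  unfold Qj
  rw [Finset.mul_sum]
  apply Finset.sum_congr rfl
  intro i hi
  have hi' : i ≤ 2 * j := by simpa [Nat.lt_succ_iff] using hi
  have : ω ^ (2 * j) = ω ^ i * ω ^ (2 * j - i) := by rw [← pow_add, Nat.add_sub_cancel' hi']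
  rw [this, mul_pow, mul_pow]
  ring

lemma hq_sub {c : ℕ → ℝ} {ρ C : ℝ} (hρ0 : 0 < ρ) (hρ : ρ < 1) (hc : ∀ j, |c j| ≤ C * ρ ^ j)
    {z w : ℂ} (hz : ‖z‖ ≤ 1) (hw : ‖w‖ ≤ 1) :
    hq c z - hq c w = (z - w) * ∑' j : ℕ, (c j : ℂ) * Qj j z w := by
  have hB := sumB hρ0 hρ hc
  have key : ∀ v : ℂ, ‖v‖ ≤ 1 → Summable fun j : ℕ => (c j : ℂ) * v ^ (2 * j + 1) := by
    intro v hv
    refine Summable.of_norm_bounded hB (fun j => ?_)
    rw [norm_mul, norm_pow, Complex.norm_real, Real.norm_eq_abs]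
    refine mul_le_mul_of_nonneg_left ((pow_le_one₀ (norm_nonneg _) hv).trans ?_) (abs_nonneg _)
    have hj : (0 : ℝ) ≤ j := Nat.cast_nonneg j
    have : (1 : ℝ) ≤ ((j : ℝ) + 1) ^ 3 := one_le_pow₀ (by linarith)
    linarith
  unfold hq
  rw [← (key z hz).tsum_sub (key w hw), ← tsum_mul_left]
  congr 1
  funext j
  have h := geom_sum₂_mul z w (2 * j + 1)
  have h2 : (∑ i ∈ Finset.range (2 * j + 1), z ^ i * w ^ (2 * j + 1 - 1 - i)) = Qj j z w := rfl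
  rw [h2] at h
  linear_combination (-(c j : ℂ)) * h

theorem taskP : TaskP := by
  intro q m ρ C κ hρ0 hρ hκ hq' hm' hpos
  obtain ⟨Aq, hAq0, hAq⟩ := series hρ0 hρ hq'
  obtain ⟨Am, hAm0, hAm⟩ := series hρ0 hρ hm'
  obtain ⟨A, hA⟩ : ∃ A : ℝ, A = Aq + Am + 1 := ⟨_, rfl⟩
  obtain ⟨ε₀, h0, hfin⟩ := final A κ (by linarith) hκ
  refine ⟨ε₀, h0, fun ε hε hε' z hz w hw hG => ?_⟩
  by_contra hne
  have hz1 : ‖z‖ < 1 := by simpa using hz.1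
  have hw1 : ‖w‖ < 1 := by simpa using hw.1
  have hz0 : z ≠ 0 := by simpa using hz.2
  have hw0 : w ≠ 0 := by simpa using hw.2
  have hzw : z - w ≠ 0 := sub_ne_zero.2 hne
  have hzn : 0 < ‖z‖ := norm_pos_iff.2 hz0
  have hwn : 0 < ‖w‖ := norm_pos_iff.2 hw0
  obtain ⟨η, hη⟩ : ∃ η : ℝ, η = arg (-(z * w)) := ⟨_, rfl⟩
  obtain ⟨γ, hγ⟩ : ∃ γ : ℝ, γ = arg z - η / 2 := ⟨_, rfl⟩
  obtain ⟨ω, hω⟩ : ∃ ω : ℂ, ω = exp (I * ((η / 2 : ℝ) : ℂ)) := ⟨_, rfl⟩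
  have ez : z = ω * (‖z‖ * exp (I * γ)) := by
    have h1 := Complex.norm_mul_exp_arg_mul_I z
    have h2 : ω * exp (I * γ) = exp (arg z * I) := by
      rw [hω, ← Complex.exp_add, hγ]
      congr 1
      push_cast
      ring
    calc z = ‖z‖ * exp (arg z * I) := h1.symm
      _ = ω * (‖z‖ * exp (I * γ)) := by rw [← h2]; ring
  have ezw : ((‖z‖ * ‖w‖ : ℝ) : ℂ) * exp (I * η) = -(z * w) := by
    have h1 := Complex.norm_mul_exp_arg_mul_I (-(z * w))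
    rw [← hη, norm_neg, norm_mul, mul_comm (η : ℂ) I] at h1
    exact h1
  have hω2 : ω * ω = exp (I * η) := by
    rw [hω, ← Complex.exp_add]
    congr 1
    push_cast
    ring
  have ew : w = ω * (‖w‖ * (-exp (-(I * γ)))) := by
    apply mul_left_cancel₀ hz0
    have h3 : exp (I * (γ : ℂ)) * exp (-(I * γ)) = 1 := by
      rw [← Complex.exp_add, add_neg_cancel, Complex.exp_zero]
    calc z * w = -(((‖z‖ * ‖w‖ : ℝ) : ℂ) * exp (I * η)) := by rw [ezw, neg_neg]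
      _ = (ω * (‖z‖ * exp (I * γ))) * (ω * (‖w‖ * (-exp (-(I * γ))))) := by
        rw [← hω2]
        push_cast
        linear_combination (‖z‖ * ‖w‖ * ω * ω : ℂ) * h3
      _ = z * (ω * (‖w‖ * (-exp (-(I * γ))))) := by rw [← ez]
  have hQz : ∀ j : ℕ, Qj j z w = exp (I * ((j * η : ℝ) : ℂ)) *
      Qj j (‖z‖ * exp (I * γ)) (‖w‖ * (-exp (-(I * γ)))) := by
    intro j
    have h1 : Qj j z w = Qj j (ω * (‖z‖ * exp (I * γ))) (ω * (‖w‖ * (-exp (-(I * γ))))) := by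
      rw [← ez, ← ew]
    rw [h1, Qj_hom, hω, ← Complex.exp_nat_mul]
    congr 2
    push_cast
    ring
  have hsq := hq_sub hρ0 hρ hq' hz1.le hw1.le
  have hsm := hq_sub hρ0 hρ hm' hz1.le hw1.le
  simp only [hQz] at hsq hsm
  obtain ⟨a1, a2, a3, a4⟩ := hAq γ η ‖z‖ ‖w‖ hzn.le hz1.le hwn.le hw1.le
  obtain ⟨d1, d2, d3, d4⟩ := hAm γ η ‖z‖ ‖w‖ hzn.le hz1.le hwn.le hw1.le
  have hP0 : 0 < ‖z‖ * ‖w‖ := mul_pos hzn hwn
  have hP1 : ‖z‖ * ‖w‖ < 1 := by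
    calc ‖z‖ * ‖w‖ < 1 * 1 := mul_lt_mul'' hz1 hw1 hzn.le hwn.le
      _ = 1 := one_mul 1
  have hAqA : Aq ≤ A := by linarith
  have hAmA : Am ≤ A := by linarith
  have hn1 : 0 ≤ |η| + (1 - ‖z‖ * ‖w‖) := by
    have := abs_nonneg η
    linarith
  have hn2 : 0 ≤ η ^ 2 + (1 - ‖z‖ * ‖w‖) := by
    have := sq_nonneg η
    linarith
  have hπ : |η| ≤ Real.pi := by rw [hη]; exact Complex.abs_arg_le_pi _
  refine hfin ε hε hε' _ _ _ _ _ η (‖z‖ * ‖w‖) hP0 hP1 hπ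
    (a1.trans (mul_le_mul_of_nonneg_right hAqA hn1))
    (a2.trans (mul_le_mul_of_nonneg_right hAqA hn2)) (a3.trans hAqA) (a4.trans hAqA)
    (d1.trans (mul_le_mul_of_nonneg_right hAmA hn1)) (d3.trans hAmA) ?_ ?_
  · have := hpos γ
    refine le_trans (le_of_eq ?_) this
    ring
  · rw [ezw]
    unfold GG at hG
    have h5 : (z - w) * (-1 - z * w + z * w * (I * ε * (∑' j : ℕ, (q j : ℂ) *
        (exp (I * ((j * η : ℝ) : ℂ)) * Qj j (‖z‖ * exp (I * γ)) (‖w‖ * (-exp (-(I * γ)))))) +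
        (ε : ℂ) ^ 2 * (∑' j : ℕ, (m j : ℂ) * (exp (I * ((j * η : ℝ) : ℂ)) *
          Qj j (‖z‖ * exp (I * γ)) (‖w‖ * (-exp (-(I * γ)))))))) = 0 := by
      field_simp at hG
      linear_combination hG - (I * ε * z * w) * hsq - ((ε : ℂ) ^ 2 * z * w) * hsm
    have h6 := (mul_eq_zero.1 h5).resolve_left hzw
    linear_combination h6

end Pool.Agent.H886R3.Bom3
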